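import Pool.Agent.Helper95.HV.Stmts
import Pool.Agent.Helper59.PN.PK

/-!
# HV, row PKL: packing with logarithm
-/

set_option autoImplicit false

namespace Pool.Agent.Helper13.HV

open Pool.Agent.Helper95.PW Pool.Agent.Helper95.HV

theorem rank_sum {ι : Type} [DecidableEq ι] (f : ι → ℝ) (s : Finset ι) :
    ∑ j ∈ s, 1 / (((s.filter fun l => f l ≤ f j).card : ℕ) : ℝ) ≤ ((harmonic s.card : ℚ) : ℝ) := by
  induction s using Finset.induction_on_max_value (f := f) with
  | empty => simp
  | insert a s ha hmax ih =>
    rw [Finset.sum_insert ha, Finset.card_insert_of_notMem ha, harmonic_succ]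
    have e1 : (insert a s).filter (fun l => f l ≤ f a) = insert a s := by
      rw [Finset.filter_eq_self]
      intro l hl
      rcases Finset.mem_insert.1 hl with rfl | hl
      · exact le_rfl
      · exact hmax l hl
    have h2 : ∑ j ∈ s, 1 / ((((insert a s).filter fun l => f l ≤ f j).card : ℕ) : ℝ) ≤
        ∑ j ∈ s, 1 / (((s.filter fun l => f l ≤ f j).card : ℕ) : ℝ) := by
      refine Finset.sum_le_sum fun j hj => ?_
      have hpos : 0 < (s.filter fun l => f l ≤ f j).card :=
        Finset.card_pos.2 ⟨j, Finset.mem_filter.2 ⟨hj, le_rfl⟩⟩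
      refine one_div_le_one_div_of_le (by exact_mod_cast hpos) ?_
      exact_mod_cast Finset.card_le_card
        (Finset.filter_subset_filter _ (Finset.subset_insert a s))
    rw [e1, Finset.card_insert_of_notMem ha]
    push_cast
    rw [one_div]
    linarith

theorem PKL : ST_PKL := by
  intro d hd
  refine ⟨1000 / d ^ 3, by positivity, fun M X i hs => ?_⟩
  have hnr : ∀ v : R3, 0 ≤ nr v := fun v => Real.sqrt_nonneg _
  have h1 : ∀ j, (if j = i then 0 else 1 / nr (X i - X j) ^ 3) ≤ 1000 / d ^ 3 *
      (1 / (((Finset.univ.filter fun l => nr (X i - X l) ≤ nr (X i - X j)).card : ℕ) : ℝ)) := by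
    intro j
    by_cases hj : j = i
    · rw [if_pos hj]
      positivity
    · rw [if_neg hj]
      have h4 : 4 * d ≤ nr (X i - X j) := hs i j (Ne.symm hj)
      have hpos : 0 < nr (X i - X j) := by linarith
      set k := ⌊nr (X i - X j) / d⌋₊ with hk
      have hk1 := Nat.lt_floor_add_one (nr (X i - X j) / d)
      rw [← hk, div_lt_iff₀ hd] at hk1
      have hk2 : (k : ℝ) ≤ nr (X i - X j) / d := Nat.floor_le (by positivity)
      have hc := pk_count X d (X i) hd hs k
        (Finset.univ.filter fun l => nr (X i - X l) ≤ nr (X i - X j)) (by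
          intro l hl
          have := (Finset.mem_filter.1 hl).2
          linarith)
      have hcp : 0 < (Finset.univ.filter fun l => nr (X i - X l) ≤ nr (X i - X j)).card :=
        Finset.card_pos.2 ⟨j, Finset.mem_filter.2 ⟨Finset.mem_univ j, le_rfl⟩⟩
      have hcp' : (0 : ℝ) <
          ((Finset.univ.filter fun l => nr (X i - X l) ≤ nr (X i - X j)).card : ℕ) := by
        exact_mod_cast hcp
      have h5 : (k : ℝ) + 1 ≤ 2 * (nr (X i - X j) / d) := by
        have : 1 ≤ nr (X i - X j) / d := by
          rw [le_div_iff₀ hd]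
          linarith
        linarith
      have h6 : ((k : ℝ) + 1) ^ 3 ≤ (2 * (nr (X i - X j) / d)) ^ 3 :=
        pow_le_pow_left₀ (by positivity) h5 3
      have h7 : (((Finset.univ.filter fun l => nr (X i - X l) ≤ nr (X i - X j)).card : ℕ) : ℝ) ≤
          1000 / d ^ 3 * nr (X i - X j) ^ 3 := by
        refine hc.trans ((mul_le_mul_of_nonneg_left h6 (by norm_num)).trans (le_of_eq ?_))
        field_simp
        norm_num
      rw [mul_one_div, div_le_div_iff₀ (by positivity) hcp', one_mul]
      exact h7
  refine (Finset.sum_le_sum fun j _ => h1 j).trans ?_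
  rw [← Finset.mul_sum]
  refine mul_le_mul_of_nonneg_left ?_ (by positivity)
  refine (rank_sum (fun l => nr (X i - X l)) Finset.univ).trans ?_
  rw [Finset.card_univ, Fintype.card_fin]
  exact harmonic_le_one_add_log M

end Pool.Agent.Helper13.HV
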